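import Mathlib

set_option autoImplicit false

/-!
# Hypergroups and continuous association schemes: definitions
-/

namespace Pool.Agent.Lib.MP_3f01e7_al

open MeasureTheory BoundedContinuousFunction

universe u v

/-- A map `F` from `Z` to the subsets of `Y` is continuous for the Vietoris topology (on
nonempty compact subsets of a metrizable space this is the Hausdorff topology). -/
def VietorisContinuous {Z : Type u} {Y : Type v} [TopologicalSpace Z] [TopologicalSpace Y]
    (F : Z → Set Y) : Prop :=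
  ∀ U : Set Y, IsOpen U → IsOpen {z | F z ⊆ U} ∧ IsOpen {z | (F z ∩ U).Nonempty}

/-- `f` is a continuous real function with compact support. -/
def IsCc {Y : Type u} [TopologicalSpace Y] (f : Y → ℝ) : Prop :=
  Continuous f ∧ HasCompactSupport f

/-- A hypergroup structure on the (locally compact Hausdorff) space `D`: `conv x y` is the
convolution `δ_x * δ_y`. -/
structure Hypergroup (D : Type u) [TopologicalSpace D] [MeasurableSpace D] where
  /-- `conv x y = δ_x * δ_y` -/
  conv : D → D → Measure D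
  /-- the identity -/
  e : D
  /-- the involution -/
  bar : D → D
  prob : ∀ x y, IsProbabilityMeasure (conv x y)
  weak : ∀ f : D →ᵇ ℝ, Continuous fun p : D × D => ∫ s, f s ∂(conv p.1 p.2)
  compact_supp : ∀ x y, IsCompact (conv x y).support
  cont_supp : VietorisContinuous fun p : D × D => (conv p.1 p.2).support
  assoc : ∀ (x y z : D) (f : D →ᵇ ℝ),
    ∫ s, (∫ t, f t ∂(conv s z)) ∂(conv x y) = ∫ s, (∫ t, f t ∂(conv x s)) ∂(conv y z)
  conv_e : ∀ x, conv x e = Measure.dirac x
  e_conv : ∀ x, conv e x = Measure.dirac x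
  cont_bar : Continuous bar
  bar_bar : ∀ x, bar (bar x) = x
  e_mem : ∀ x y, e ∈ (conv x y).support ↔ y = bar x
  bar_conv : ∀ x y, (conv x y).map bar = conv (bar y) (bar x)

namespace Hypergroup

variable {D : Type u} [TopologicalSpace D] [MeasurableSpace D]

/-- The hypergroup is commutative. -/
def IsCommutative (H : Hypergroup D) : Prop := ∀ x y, H.conv x y = H.conv y x

/-- `ω` is a left Haar measure: a nonzero Radon measure with
`∫ f(x * y) dω(y) = ∫ f dω` for all `x` in `D` and `f` in `C_c(D)`. -/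
def IsLeftHaar (H : Hypergroup D) (ω : Measure D) : Prop :=
  IsLocallyFiniteMeasure ω ∧ ω ≠ 0 ∧
    ∀ (x : D) (f : D → ℝ), IsCc f → ∫ y, (∫ s, f s ∂(H.conv x y)) ∂ω = ∫ y, f y ∂ω

/-- `ω` is right invariant: `∫ f(x * y) dω(x) = ∫ f dω` for all `y` in `D` and `f` in
`C_c(D)`. -/
def IsRightInvariant (H : Hypergroup D) (ω : Measure D) : Prop :=
  ∀ (y : D) (f : D → ℝ), IsCc f → ∫ x, (∫ s, f s ∂(H.conv x y)) ∂ω = ∫ x, f x ∂ω

/-- The hypergroup is unimodular: it has a left Haar measure which is right invariant. -/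
def IsUnimodular (H : Hypergroup D) : Prop := ∃ ω, H.IsLeftHaar ω ∧ H.IsRightInvariant ω

end Hypergroup

/-- Condition (4) for the measure `ω` on `X`: it is a positive Radon measure with full support
and `∫ (T_{bar h} f) g dω = ∫ f (T_h g) dω` for all `h` in `D` and `f, g` in `C_c(X)`, where
`T_h f(x) = ∫ f dK_h(x, ·)`. -/
def IsReversing {X : Type u} {D : Type v} [TopologicalSpace X] [MeasurableSpace X]
    (bar : D → D) (K : X → D → Measure X) (ω : Measure X) : Prop :=
  IsLocallyFiniteMeasure ω ∧ ω.IsOpenPosMeasure ∧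
    ∀ (h : D) (f g : X → ℝ), IsCc f → IsCc g →
      ∫ x, (∫ y, f y ∂(K x (bar h))) * g x ∂ω = ∫ x, f x * (∫ y, g y ∂(K x h)) ∂ω

/-- A continuous association scheme `(X, D, K)`, where `K x h = K_h(x, ·)`. -/
structure CAS (X : Type u) (D : Type v) [TopologicalSpace X] [MeasurableSpace X]
    [TopologicalSpace D] [MeasurableSpace D] where
  /-- the kernel: `K x h = K_h(x, ·)` -/
  K : X → D → Measure X
  prob : ∀ x h, IsProbabilityMeasure (K x h)
  feller : ∀ f : X →ᵇ ℝ, Continuous fun p : X × D => ∫ y, f y ∂(K p.1 p.2)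
  compact_supp : ∀ x h, IsCompact (K x h).support
  cont_supp : VietorisContinuous fun p : X × D => (K p.1 p.2).support
  /-- the projection `π : X × X → D` -/
  proj : X → X → D
  mem_supp_iff : ∀ x y h, y ∈ (K x h).support ↔ proj x y = h
  cont_proj : Continuous fun p : X × X => proj p.1 p.2
  /-- the hypergroup structure of `D` -/
  H : Hypergroup D
  comp : ∀ (h₁ h₂ : D) (x : X) (f : X →ᵇ ℝ),
    ∫ y, (∫ z, f z ∂(K y h₂)) ∂(K x h₁) = ∫ h, (∫ z, f z ∂(K x h)) ∂(H.conv h₁ h₂)
  K_e : ∀ x, K x H.e = Measure.dirac x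
  exists_reversing : ∃ ω : Measure X, IsReversing H.bar K ω

namespace CAS

variable {X : Type u} {D : Type v} [TopologicalSpace X] [MeasurableSpace X]
    [TopologicalSpace D] [MeasurableSpace D]

/-- Property (T1): `f_h ∘ π_x = T_h (f ∘ π_x)` for all `h` in `D`, `x` in `X` and `f` in
`C_c(D)`. -/
def T1 (C : CAS X D) : Prop :=
  ∀ (h : D) (x : X) (f : D → ℝ), IsCc f → ∀ y : X,
    ∫ s, f s ∂(C.H.conv (C.proj x y) h) = ∫ z, f (C.proj x z) ∂(C.K y h)

/-- `T_f g = c T^{f ∘ π} g` for all `f` in `C_c(D)` and `g` in `C_c(X)`, where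
`T_f g(x) = ∫ T_h g(x) f(h) dωD(h)` and `T^{f ∘ π} g(x) = ∫ f(π(x,y)) g(y) dωX(y)`. -/
def TransferIdentity (C : CAS X D) (ωX : Measure X) (ωD : Measure D) (c : ℝ) : Prop :=
  ∀ (f : D → ℝ) (g : X → ℝ), IsCc f → IsCc g → ∀ x : X,
    ∫ h, (∫ y, g y ∂(C.K x h)) * f h ∂ωD = c * ∫ y, f (C.proj x y) * g y ∂ωX

/-- Property (T2): for some `ωX` as in condition (4) and some left Haar measure `ωD`,
`T_f = T^{f ∘ π}` for all `f` in `C_c(D)`. -/
def T2 (C : CAS X D) : Prop :=
  ∃ (ωX : Measure X) (ωD : Measure D), IsReversing C.H.bar C.K ωX ∧ C.H.IsLeftHaar ωD ∧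
    C.TransferIdentity ωX ωD 1

/-- Property (T2) for every choice of `ωX` as in condition (4) and of the left Haar measure
`ωD`: up to a positive constant, `T_f = T^{f ∘ π}` for all `f` in `C_c(D)`. -/
def T2All (C : CAS X D) : Prop :=
  ∀ (ωX : Measure X) (ωD : Measure D), IsReversing C.H.bar C.K ωX → C.H.IsLeftHaar ωD →
    ∃ c : ℝ, 0 < c ∧ C.TransferIdentity ωX ωD c

end CAS

end Pool.Agent.Lib.MP_3f01e7_al
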