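import Mathlib
import Pool.Agent.Lib.MP_3f01e7_al.Defs

set_option autoImplicit false
set_option linter.unusedSectionVars false

/-!
# Basic lemmas on hypergroups
-/

namespace Pool.Agent.Lib.MP_3f01e7_al

open MeasureTheory BoundedContinuousFunction Topology Set

universe u v

section General

variable {Y : Type u} [TopologicalSpace Y]

theorem IsCc.exists_bcf {f : Y → ℝ} (hf : IsCc f) : ∃ F : Y →ᵇ ℝ, ∀ y, F y = f y := by
  obtain ⟨C, hC⟩ := hf.2.exists_bound_of_continuous hf.1
  exact ⟨BoundedContinuousFunction.ofNormedAddCommGroup f hf.1 C hC, fun y => rfl⟩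

theorem exists_compact_cover {Z : Type v} [TopologicalSpace Z] [LocallyCompactSpace Y]
    {F : Z → Set Y} (hF : VietorisContinuous F) (hc : ∀ z, IsCompact (F z)) {C : Set Z}
    (hC : IsCompact C) : ∃ K, IsCompact K ∧ ∀ z ∈ C, F z ⊆ K := by
  refine hC.induction_on (p := fun s => ∃ K, IsCompact K ∧ ∀ z ∈ s, F z ⊆ K) ?_ ?_ ?_ ?_
  · exact ⟨∅, isCompact_empty, fun z hz => hz.elim⟩
  · rintro s t hst ⟨K, hK, h⟩
    exact ⟨K, hK, fun z hz => h z (hst hz)⟩
  · rintro s t ⟨K, hK, h⟩ ⟨K', hK', h'⟩
    refine ⟨K ∪ K', hK.union hK', fun z hz => ?_⟩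
    rcases hz with hz | hz
    · exact (h z hz).trans subset_union_left
    · exact (h' z hz).trans subset_union_right
  · intro z _
    obtain ⟨K, hK, hzK⟩ := exists_compact_superset (hc z)
    refine ⟨{z' | F z' ⊆ interior K}, ?_, K, hK, fun z' hz' => hz'.trans interior_subset⟩
    exact mem_nhdsWithin_of_mem_nhds ((hF _ isOpen_interior).1.mem_nhds hzK)

variable [MeasurableSpace Y]

theorem integral_congr_support [HereditarilyLindelofSpace Y] {μ : Measure Y} {f g : Y → ℝ}
    (h : ∀ y ∈ μ.support, f y = g y) : ∫ y, f y ∂μ = ∫ y, g y ∂μ := by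
  apply integral_congr_ae
  filter_upwards [Measure.support_mem_ae (μ := μ)] with y hy using h y hy

theorem exists_mem_support_ne_zero [HereditarilyLindelofSpace Y] {μ : Measure Y} {f : Y → ℝ}
    (h : ∫ y, f y ∂μ ≠ 0) : ∃ y ∈ μ.support, f y ≠ 0 := by
  by_contra hcon
  push Not at hcon
  apply h
  rw [integral_congr_support hcon, integral_zero]

theorem integral_pos_of_support [OpensMeasurableSpace Y] {μ : Measure Y} [IsFiniteMeasure μ]
    (f : Y →ᵇ ℝ)
    (hf0 : ∀ y, 0 ≤ f y) {w : Y} (hw : w ∈ μ.support) (hfw : 0 < f w) :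
    0 < ∫ y, f y ∂μ := by
  rw [integral_pos_iff_support_of_nonneg hf0 (f.integrable μ)]
  apply (Measure.mem_support_iff_forall w).1 hw
  apply (f.continuous.isOpen_support).mem_nhds
  exact hfw.ne'

theorem support_nonempty [HereditarilyLindelofSpace Y] (μ : Measure Y) [IsProbabilityMeasure μ] :
    μ.support.Nonempty := by
  by_contra hcon
  rw [not_nonempty_iff_eq_empty] at hcon
  have h1 := Measure.support_mem_ae (μ := μ)
  rw [hcon, mem_ae_iff, compl_empty, measure_univ] at h1
  exact one_ne_zero h1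

/-- a continuous bump function with compact support inside an open set -/
theorem exists_bump [LocallyCompactSpace Y] [T2Space Y] {w : Y} {U : Set Y} (hU : IsOpen U)
    (hw : w ∈ U) : ∃ f : Y → ℝ, IsCc f ∧ (∀ y, 0 ≤ f y) ∧ (∀ y, f y ≤ 1) ∧ f w = 1 ∧
      tsupport f ⊆ U := by
  obtain ⟨f, hf1, hf2, hf3, hf4⟩ :=
    exists_continuousMap_one_of_isCompact_subset_isOpen (isCompact_singleton (x := w)) hU
      (singleton_subset_iff.2 hw)
  exact ⟨f, ⟨f.continuous, hf2⟩, fun y => (hf4 y).1, fun y => (hf4 y).2, hf1 rfl, hf3⟩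

/-- a continuous function with compact support, equal to one on a compact set -/
theorem exists_cutoff [LocallyCompactSpace Y] [T2Space Y] {K : Set Y} (hK : IsCompact K) :
    ∃ f : Y → ℝ, IsCc f ∧ ∀ y ∈ K, f y = 1 := by
  obtain ⟨f, hf1, hf2, hf3, hf4⟩ :=
    exists_continuousMap_one_of_isCompact_subset_isOpen hK isOpen_univ (subset_univ _)
  exact ⟨f, ⟨f.continuous, hf2⟩, fun y hy => hf1 hy⟩

end General

section Hyper

variable {D : Type u} [TopologicalSpace D] [MeasurableSpace D] [BorelSpace D]
  [LocallyCompactSpace D] [T2Space D] [SecondCountableTopology D] (H : Hypergroup D)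

theorem Hypergroup.support_bar {x y s : D} (h : s ∈ (H.conv x y).support) :
    H.bar s ∈ (H.conv (H.bar y) (H.bar x)).support := by
  rw [← H.bar_conv, Measure.mem_support_iff_forall]
  intro U hU
  obtain ⟨V, hVU, hVo, hV⟩ := mem_nhds_iff.1 hU
  have h1 : 0 < H.conv x y (H.bar ⁻¹' V) := by
    apply (Measure.mem_support_iff_forall s).1 h
    exact (hVo.preimage H.cont_bar).mem_nhds hV
  rw [← Measure.map_apply H.cont_bar.measurable hVo.measurableSet] at h1
  exact h1.trans_le (measure_mono hVU)

theorem Hypergroup.support_swap_left {x y s : D} (h : s ∈ (H.conv x y).support) :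
    y ∈ (H.conv (H.bar x) s).support := by
  have := H.prob
  -- it suffices to find `t` in the support of `bar s * x` with `e` in the support of `t * y`
  have key : ∃ t ∈ (H.conv (H.bar s) x).support, H.e ∈ (H.conv t y).support := by
    by_contra hcon
    push Not at hcon
    have hV : ∃ V : Set D, IsOpen V ∧ H.e ∈ V ∧
        ∀ t ∈ (H.conv (H.bar s) x).support, Disjoint (H.conv t y).support V := by
      refine (H.compact_supp (H.bar s) x).induction_on
        (p := fun S => ∃ V : Set D, IsOpen V ∧ H.e ∈ V ∧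
          ∀ t ∈ S, Disjoint (H.conv t y).support V) ?_ ?_ ?_ ?_
      · exact ⟨univ, isOpen_univ, mem_univ _, fun t ht => ht.elim⟩
      · rintro S T hST ⟨V, hV1, hV2, hV3⟩
        exact ⟨V, hV1, hV2, fun t ht => hV3 t (hST ht)⟩
      · rintro S T ⟨V, hV1, hV2, hV3⟩ ⟨V', hV1', hV2', hV3'⟩
        refine ⟨V ∩ V', hV1.inter hV1', ⟨hV2, hV2'⟩, fun t ht => ?_⟩
        rcases ht with ht | ht
        · exact (hV3 t ht).mono_right inter_subset_left
        · exact (hV3' t ht).mono_right inter_subset_right
      · intro t ht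
        obtain ⟨U, V, hU, hV, hUs, hVe, hUV⟩ := SeparatedNhds.of_isCompact_isCompact
          (H.compact_supp t y) (isCompact_singleton (x := H.e))
          (disjoint_singleton_right.2 (hcon t ht))
        refine ⟨{t' | (H.conv t' y).support ⊆ U}, ?_, V, hV, singleton_subset_iff.1 hVe,
          fun t' ht' => hUV.mono_left ht'⟩
        apply mem_nhdsWithin_of_mem_nhds
        have h1 := (H.cont_supp U hU).1
        have h2 : Continuous fun t' : D => (t', y) := by fun_prop
        exact (h1.preimage h2).mem_nhds hUs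
    obtain ⟨V, hVo, hVe, hVd⟩ := hV
    obtain ⟨f, hf, hf0, -, hf1, hfV⟩ := exists_bump hVo hVe
    obtain ⟨F, hF⟩ := hf.exists_bcf
    have hassoc := H.assoc (H.bar s) x y F
    have hleft : ∫ r, (∫ t, F t ∂(H.conv r y)) ∂(H.conv (H.bar s) x) = 0 := by
      rw [← integral_zero (α := D) (G := ℝ) (μ := H.conv (H.bar s) x)]
      apply integral_congr_support
      intro r hr
      rw [← integral_zero (α := D) (G := ℝ) (μ := H.conv r y)]
      apply integral_congr_support
      intro t ht
      rw [hF]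
      by_contra h0
      exact disjoint_left.1 (hVd r hr) ht (hfV (subset_tsupport f h0))
    have hcont : Continuous fun t : D => ∫ r, F r ∂(H.conv (H.bar s) t) :=
      (H.weak F).comp (by fun_prop : Continuous fun t : D => (H.bar s, t))
    have hbd : ∀ t : D, ‖∫ r, F r ∂(H.conv (H.bar s) t)‖ ≤ ‖F‖ := by
      intro t
      refine (norm_integral_le_of_norm_le_const (C := ‖F‖)
        (Filter.Eventually.of_forall fun r => F.norm_coe_le_norm r)).trans ?_
      simp
    let G : D →ᵇ ℝ := BoundedContinuousFunction.ofNormedAddCommGroup _ hcont _ hbd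
    have hright : 0 < ∫ t, G t ∂(H.conv x y) := by
      refine integral_pos_of_support G ?_ h ?_
      · intro t
        exact integral_nonneg (fun r => by rw [Pi.zero_apply, hF]; exact hf0 r)
      · change 0 < ∫ r, F r ∂(H.conv (H.bar s) s)
        refine integral_pos_of_support F (fun r => by rw [hF]; exact hf0 r) (w := H.e) ?_ ?_
        · rw [H.e_mem, H.bar_bar]
        · rw [hF, hf1]; exact one_pos
    rw [hleft] at hassoc
    exact hright.ne hassoc
  obtain ⟨t, ht, het⟩ := key
  rw [H.e_mem] at het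
  have h1 := H.support_bar ht
  rw [H.bar_bar, ← het] at h1
  exact h1

theorem Hypergroup.support_swap_right {x y s : D} (h : s ∈ (H.conv x y).support) :
    x ∈ (H.conv s (H.bar y)).support := by
  have h1 := H.support_bar h
  have h2 := H.support_swap_left h1
  have h3 := H.support_bar h2
  rw [H.bar_bar, H.bar_bar, H.bar_bar] at h3
  exact h3

theorem Hypergroup.continuous_left {f : D → ℝ} (hf : IsCc f) :
    Continuous fun p : D × D => ∫ s, f s ∂(H.conv p.1 p.2) := by
  obtain ⟨F, hF⟩ := hf.exists_bcf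
  have h1 := H.weak F
  simp only [hF] at h1
  exact h1

/-- `y ↦ f(x * y)` is in `C_c`. -/
theorem Hypergroup.cc_left {f : D → ℝ} (hf : IsCc f) (x : D) :
    IsCc fun y => ∫ s, f s ∂(H.conv x y) := by
  refine ⟨(H.continuous_left hf).comp (by fun_prop : Continuous fun y : D => (x, y)), ?_⟩
  obtain ⟨K, hK, hsub⟩ := exists_compact_cover (Z := D)
    (F := fun s => (H.conv (H.bar x) s).support) (by
      intro U hU
      have h2 : Continuous fun s : D => (H.bar x, s) := by fun_prop
      exact ⟨((H.cont_supp U hU).1).preimage h2, ((H.cont_supp U hU).2).preimage h2⟩)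
    (fun s => H.compact_supp _ _) hf.2
  refine HasCompactSupport.intro hK ?_
  intro y hy
  by_contra h0
  obtain ⟨s, hs, hfs⟩ := exists_mem_support_ne_zero h0
  exact hy (hsub s (subset_tsupport f hfs) (H.support_swap_left hs))

/-- `x ↦ f(x * y)` is in `C_c`. -/
theorem Hypergroup.cc_right {f : D → ℝ} (hf : IsCc f) (y : D) :
    IsCc fun x => ∫ s, f s ∂(H.conv x y) := by
  refine ⟨(H.continuous_left hf).comp (by fun_prop : Continuous fun x : D => (x, y)), ?_⟩
  obtain ⟨K, hK, hsub⟩ := exists_compact_cover (Z := D)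
    (F := fun s => (H.conv s (H.bar y)).support) (by
      intro U hU
      have h2 : Continuous fun s : D => (s, H.bar y) := by fun_prop
      exact ⟨((H.cont_supp U hU).1).preimage h2, ((H.cont_supp U hU).2).preimage h2⟩)
    (fun s => H.compact_supp _ _) hf.2
  refine HasCompactSupport.intro hK ?_
  intro x hx
  by_contra h0
  obtain ⟨s, hs, hfs⟩ := exists_mem_support_ne_zero h0
  exact hx (hsub s (subset_tsupport f hfs) (H.support_swap_right hs))

/-- A left Haar measure integrates nonnegative functions in `C_c` which are positive at `e` to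
something positive. -/
theorem Hypergroup.haar_pos {ω : Measure D} (hω : H.IsLeftHaar ω) {f : D → ℝ} (hf : IsCc f)
    (hf0 : ∀ y, 0 ≤ f y) (hfe : 0 < f H.e) : 0 < ∫ y, f y ∂ω := by
  have := H.prob
  obtain ⟨hfin, hne, hinv⟩ := hω
  refine lt_of_le_of_ne (integral_nonneg hf0) (fun h0 => hne ?_)
  rw [← Measure.measure_univ_eq_zero]
  refine measure_null_of_locally_null _ (fun x _ => ?_)
  -- the function `y ↦ f(bar x * y)` is positive at `x`
  have hcc := H.cc_left hf (H.bar x)
  have hint : Integrable (fun y => ∫ s, f s ∂(H.conv (H.bar x) y)) ω :=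
    hcc.1.integrable_of_hasCompactSupport hcc.2
  have hnn : ∀ y, 0 ≤ ∫ s, f s ∂(H.conv (H.bar x) y) := fun y => integral_nonneg hf0
  have h1 : ∫ y, (∫ s, f s ∂(H.conv (H.bar x) y)) ∂ω = 0 := by
    rw [hinv _ f hf, ← h0]
  rw [integral_eq_zero_iff_of_nonneg hnn hint] at h1
  have hpos : 0 < ∫ s, f s ∂(H.conv (H.bar x) x) := by
    obtain ⟨F, hF⟩ := hf.exists_bcf
    have h2 := integral_pos_of_support (μ := H.conv (H.bar x) x) F
      (fun r => by rw [hF]; exact hf0 r) (w := H.e)
      (by rw [H.e_mem, H.bar_bar]) (by rw [hF]; exact hfe)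
    simpa only [hF] using h2
  refine ⟨{y | 0 < ∫ s, f s ∂(H.conv (H.bar x) y)}, ?_, ?_⟩
  · rw [nhdsWithin_univ]
    exact (isOpen_lt continuous_const hcc.1).mem_nhds hpos
  · have h3 : {y | 0 < ∫ s, f s ∂(H.conv (H.bar x) y)}
        ⊆ {y | ¬ (∫ s, f s ∂(H.conv (H.bar x) y)) = 0} := fun y hy => (ne_of_gt hy)
    exact measure_mono_null h3 (by simpa [Filter.EventuallyEq, ae_iff] using h1)

end Hyper

end Pool.Agent.Lib.MP_3f01e7_al
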