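import Mathlib
import Pool.Agent.Lib.MP_3f01e7_al.Basic

set_option autoImplicit false
set_option linter.unusedSectionVars false

/-!
# (T1) and unimodularity imply (T2)
-/

namespace Pool.Agent.Lib.MP_3f01e7_al

open MeasureTheory BoundedContinuousFunction Topology Set

universe u v

section

variable {X : Type u} {D : Type v}
  [TopologicalSpace X] [MeasurableSpace X] [BorelSpace X]
  [LocallyCompactSpace X] [T2Space X] [SecondCountableTopology X]
  [TopologicalSpace D] [MeasurableSpace D] [BorelSpace D]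
  [LocallyCompactSpace D] [T2Space D] [SecondCountableTopology D]
  (C : CAS X D)

namespace CAS

theorem mem_supp_proj (x y : X) : y ∈ (C.K x (C.proj x y)).support :=
  (C.mem_supp_iff x y _).2 rfl

theorem support_dirac_subset {Y : Type u} [TopologicalSpace Y] [MeasurableSpace Y]
    [BorelSpace Y] [T2Space Y] (y : Y) : (Measure.dirac y).support = {y} := by
  ext z
  rw [mem_singleton_iff]
  constructor
  · intro hz
    by_contra hne
    obtain ⟨U, hU, hyU⟩ : ∃ U ∈ 𝓝 z, y ∉ U :=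
      ⟨{y}ᶜ, isOpen_compl_singleton.mem_nhds hne, fun h => h rfl⟩
    obtain ⟨V, hVU, hVo, hV⟩ := mem_nhds_iff.1 hU
    have h1 := (Measure.mem_support_iff_forall z).1 hz V (hVo.mem_nhds hV)
    rw [Measure.dirac_apply' _ hVo.measurableSet, indicator_of_notMem (fun h => hyU (hVU h))] at h1
    exact h1.ne rfl
  · rintro rfl
    rw [Measure.mem_support_iff_forall]
    intro U hU
    obtain ⟨V, hVU, hVo, hV⟩ := mem_nhds_iff.1 hU
    refine lt_of_lt_of_le ?_ (measure_mono hVU)
    rw [Measure.dirac_apply' _ hVo.measurableSet, indicator_of_mem hV]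
    exact one_pos

theorem proj_self (x : X) : C.proj x x = C.H.e := by
  rw [← C.mem_supp_iff, C.K_e, support_dirac_subset]
  rfl

theorem bar_e (H : Hypergroup D) : H.bar H.e = H.e := by
  symm
  rw [← H.e_mem, H.e_conv, support_dirac_subset]
  rfl

theorem proj_cc {f : D → ℝ} (hf : IsCc f) (x : X) : IsCc fun y => f (C.proj x y) := by
  have hc : Continuous fun y => C.proj x y :=
    C.cont_proj.comp (by fun_prop : Continuous fun y : X => (x, y))
  refine ⟨hf.1.comp hc, ?_⟩
  obtain ⟨K, hK, hsub⟩ := exists_compact_cover (Z := D)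
    (F := fun h => (C.K x h).support) (by
      intro U hU
      have h2 : Continuous fun s : D => (x, s) := by fun_prop
      exact ⟨((C.cont_supp U hU).1).preimage h2, ((C.cont_supp U hU).2).preimage h2⟩)
    (fun s => C.compact_supp _ _) hf.2
  refine HasCompactSupport.intro hK ?_
  intro y hy
  by_contra h0
  exact hy (hsub _ (subset_tsupport f h0) (C.mem_supp_proj x y))

theorem continuous_T {g : X → ℝ} (hg : IsCc g) :
    Continuous fun p : X × D => ∫ y, g y ∂(C.K p.1 p.2) := by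
  obtain ⟨F, hF⟩ := hg.exists_bcf
  have h1 := C.feller F
  simp only [hF] at h1
  exact h1

theorem exists_of_T_ne_zero {g : X → ℝ} {x : X} {h : D} (h0 : ∫ y, g y ∂(C.K x h) ≠ 0) :
    ∃ z ∈ tsupport g, C.proj x z = h := by
  obtain ⟨z, hz, hgz⟩ := exists_mem_support_ne_zero h0
  exact ⟨z, subset_tsupport g hgz, (C.mem_supp_iff x z h).1 hz⟩

/-- The compact set of `h` for which `T_h g` may be nonzero on the compact set `W`. -/
theorem compact_image {W : Set X} (hW : IsCompact W) {g : X → ℝ} (hg : IsCc g) :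
    IsCompact ((fun p : X × X => C.proj p.1 p.2) '' (W ×ˢ tsupport g)) :=
  (hW.prod hg.2).image C.cont_proj

theorem T_eq_zero {W : Set X} {g : X → ℝ} {y : X} (hy : y ∈ W)
    {h : D} (hh : h ∉ (fun p : X × X => C.proj p.1 p.2) '' (W ×ˢ tsupport g)) :
    ∫ z, g z ∂(C.K y h) = 0 := by
  by_contra h0
  obtain ⟨z, hz, hzh⟩ := C.exists_of_T_ne_zero h0
  exact hh ⟨(y, z), ⟨hy, hz⟩, hzh⟩

theorem cc_T {g : X → ℝ} (hg : IsCc g) (y : X) : IsCc fun h => ∫ z, g z ∂(C.K y h) := by
  refine ⟨(C.continuous_T hg).comp (by fun_prop : Continuous fun h : D => (y, h)), ?_⟩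
  refine HasCompactSupport.intro (C.compact_image (isCompact_singleton (x := y)) hg) ?_
  intro h hh
  exact C.T_eq_zero (mem_singleton y) hh

/-- `G(y) = ∫ T_h g(y) dω(h)` is continuous. -/
theorem continuous_G {g : X → ℝ} (hg : IsCc g) (ω : Measure D) [IsLocallyFiniteMeasure ω] :
    Continuous fun y => ∫ h, (∫ z, g z ∂(C.K y h)) ∂ω := by
  rw [continuous_iff_continuousAt]
  intro y₀
  obtain ⟨W, hW, hWn⟩ := exists_compact_mem_nhds y₀
  have h1 : Continuous fun y => ∫ h in ((fun p : X × X => C.proj p.1 p.2) '' (W ×ˢ tsupport g)),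
      (∫ z, g z ∂(C.K y h)) ∂ω :=
    continuous_parametric_integral_of_continuous (f := fun y h => ∫ z, g z ∂(C.K y h))
      (C.continuous_T hg) (C.compact_image hW hg)
  refine (h1.continuousAt (x := y₀)).congr ?_
  filter_upwards [hWn] with y hy
  apply setIntegral_eq_integral_of_forall_compl_eq_zero
  intro h hh
  exact C.T_eq_zero hy hh

/-- The main identity. -/
theorem main_identity (hT1 : C.T1) {ωX : Measure X} (hωX : IsReversing C.H.bar C.K ωX)
    {ωD : Measure D} [IsLocallyFiniteMeasure ωD] (hr : C.H.IsRightInvariant ωD)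
    {φ : D → ℝ} (hφ : IsCc φ) {g : X → ℝ} (hg : IsCc g) (x : X) :
    ∫ y, φ (C.proj x y) * (∫ h, (∫ z, g z ∂(C.K y h)) ∂ωD) ∂ωX
      = (∫ h, φ (C.H.bar h) ∂ωD) * ∫ z, g z ∂ωX := by
  obtain ⟨hfin, hpos, hrev⟩ := hωX
  have hφx := C.proj_cc hφ x
  have hφbar : IsCc fun h => φ (C.H.bar h) := by
    refine ⟨hφ.1.comp C.H.cont_bar, ?_⟩
    refine HasCompactSupport.intro (hφ.2.image C.H.cont_bar) ?_
    intro h hh
    by_contra h0
    exact hh ⟨C.H.bar h, subset_tsupport φ h0, C.H.bar_bar h⟩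
  -- first swap
  have hF1 : Continuous (Function.uncurry fun (y : X) (h : D) =>
      φ (C.proj x y) * ∫ z, g z ∂(C.K y h)) := by
    have h1 : Continuous fun p : X × D => φ (C.proj x p.1) := hφx.1.comp continuous_fst
    exact h1.mul (C.continuous_T hg)
  have hF1s : HasCompactSupport (Function.uncurry fun (y : X) (h : D) =>
      φ (C.proj x y) * ∫ z, g z ∂(C.K y h)) := by
    refine HasCompactSupport.intro ((hφx.2).prod (C.compact_image hφx.2 hg)) ?_
    rintro ⟨y, h⟩ hyh
    by_contra h0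
    apply hyh
    have h1 : φ (C.proj x y) ≠ 0 := left_ne_zero_of_mul h0
    have h2 : ∫ z, g z ∂(C.K y h) ≠ 0 := right_ne_zero_of_mul h0
    have hy : y ∈ tsupport fun y => φ (C.proj x y) :=
      subset_tsupport (fun y => φ (C.proj x y)) h1
    obtain ⟨z, hz, hzh⟩ := C.exists_of_T_ne_zero h2
    exact ⟨hy, ⟨(y, z), ⟨hy, hz⟩, hzh⟩⟩
  -- second swap
  have hF2 : Continuous (Function.uncurry fun (h : D) (y : X) =>
      (∫ z, φ (C.proj x z) ∂(C.K y (C.H.bar h))) * g y) := by
    have h1 : Continuous fun p : D × X => ∫ z, φ (C.proj x z) ∂(C.K p.2 (C.H.bar p.1)) := by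
      have h3 : Continuous fun p : D × X => (p.2, C.H.bar p.1) :=
        continuous_snd.prodMk (C.H.cont_bar.comp continuous_fst)
      exact (C.continuous_T hφx).comp h3
    exact h1.mul (hg.1.comp continuous_snd)
  have hF2s : HasCompactSupport (Function.uncurry fun (h : D) (y : X) =>
      (∫ z, φ (C.proj x z) ∂(C.K y (C.H.bar h))) * g y) := by
    refine HasCompactSupport.intro
      (((C.compact_image hg.2 hφx).image C.H.cont_bar).prod hg.2) ?_
    rintro ⟨h, y⟩ hyh
    by_contra h0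
    apply hyh
    have h1 : ∫ z, φ (C.proj x z) ∂(C.K y (C.H.bar h)) ≠ 0 := left_ne_zero_of_mul h0
    have h2 : g y ≠ 0 := right_ne_zero_of_mul h0
    obtain ⟨z, hz, hzh⟩ := C.exists_of_T_ne_zero h1
    refine ⟨⟨C.H.bar h, ⟨(y, z), ⟨subset_tsupport g h2, hz⟩, hzh⟩, C.H.bar_bar h⟩,
      subset_tsupport g h2⟩
  calc ∫ y, φ (C.proj x y) * (∫ h, (∫ z, g z ∂(C.K y h)) ∂ωD) ∂ωX
      = ∫ y, (∫ h, φ (C.proj x y) * (∫ z, g z ∂(C.K y h)) ∂ωD) ∂ωX := by
        congr 1 with y
        rw [integral_const_mul]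
    _ = ∫ h, (∫ y, φ (C.proj x y) * (∫ z, g z ∂(C.K y h)) ∂ωX) ∂ωD :=
        integral_integral_swap_of_hasCompactSupport hF1 hF1s
    _ = ∫ h, (∫ y, (∫ z, φ (C.proj x z) ∂(C.K y (C.H.bar h))) * g y ∂ωX) ∂ωD := by
        congr 1 with h
        exact (hrev h _ _ hφx hg).symm
    _ = ∫ y, (∫ h, (∫ z, φ (C.proj x z) ∂(C.K y (C.H.bar h))) * g y ∂ωD) ∂ωX :=
        integral_integral_swap_of_hasCompactSupport hF2 hF2s
    _ = ∫ y, (∫ h, φ (C.H.bar h) ∂ωD) * g y ∂ωX := by
        congr 1 with y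
        rw [integral_mul_const]
        congr 1
        rw [← hr (C.H.bar (C.proj x y)) _ hφbar]
        congr 1 with h
        rw [← hT1 (C.H.bar h) x φ hφ y]
        have h1 := C.H.bar_conv h (C.H.bar (C.proj x y))
        rw [C.H.bar_bar] at h1
        rw [← h1, integral_map C.H.cont_bar.measurable.aemeasurable
          hφ.1.aestronglyMeasurable]
    _ = (∫ h, φ (C.H.bar h) ∂ωD) * ∫ z, g z ∂ωX := integral_const_mul _ _

/-- The limiting argument: `ωX(g) G₀(x) = ωX(g₀) G(x)`. -/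
theorem limit_identity (hT1 : C.T1) {ωX : Measure X} (hωX : IsReversing C.H.bar C.K ωX)
    {ωD : Measure D} (hl : C.H.IsLeftHaar ωD) (hr : C.H.IsRightInvariant ωD)
    {g g₀ : X → ℝ} (hg : IsCc g) (hg₀ : IsCc g₀) (x : X)
    (hG₀ : 0 < ∫ h, (∫ z, g₀ z ∂(C.K x h)) ∂ωD) :
    (∫ z, g₀ z ∂ωX) * (∫ h, (∫ z, g z ∂(C.K x h)) ∂ωD)
      = (∫ z, g z ∂ωX) * (∫ h, (∫ z, g₀ z ∂(C.K x h)) ∂ωD) := by
  have hlf : IsLocallyFiniteMeasure ωD := hl.1
  have hlfX : IsLocallyFiniteMeasure ωX := hωX.1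
  have hGc := C.continuous_G hg ωD
  have hG₀c := C.continuous_G hg₀ ωD
  set G : X → ℝ := fun y => ∫ h, (∫ z, g z ∂(C.K y h)) ∂ωD with hGdef
  set G₀ : X → ℝ := fun y => ∫ h, (∫ z, g₀ z ∂(C.K y h)) ∂ωD with hG₀def
  change (∫ z, g₀ z ∂ωX) * G x = (∫ z, g z ∂ωX) * G₀ x
  change 0 < G₀ x at hG₀
  set a := ∫ z, g z ∂ωX with ha
  set a₀ := ∫ z, g₀ z ∂ωX with ha₀
  -- estimate for all small `ε`
  have hest : ∀ ε : ℝ, 0 < ε → ε ≤ G₀ x / 2 →
      |a₀ * G x - a * G₀ x| ≤ ε * (2 * a₀ / G₀ x * (|G x| + G₀ x)) := by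
    intro ε hε hε2
    let W : Set X := {y | |G y - G x| < ε ∧ |G₀ y - G₀ x| < ε}
    have hWo : IsOpen W := by
      have h1 : IsOpen {y | |G y - G x| < ε} :=
        isOpen_lt ((hGc.sub continuous_const).abs) continuous_const
      have h2 : IsOpen {y | |G₀ y - G₀ x| < ε} :=
        isOpen_lt ((hG₀c.sub continuous_const).abs) continuous_const
      exact h1.inter h2
    have hxW : x ∈ W := by
      constructor <;> simpa using hε
    let U : Set D := {h | (C.K x h).support ⊆ W}
    have hUo : IsOpen U := by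
      have h2 : Continuous fun h : D => (x, h) := by fun_prop
      exact ((C.cont_supp W hWo).1).preimage h2
    have heU : C.H.e ∈ U := by
      change (C.K x C.H.e).support ⊆ W
      rw [C.K_e, support_dirac_subset]
      exact singleton_subset_iff.2 hxW
    obtain ⟨φ, hφ, hφ0, -, hφ1, hφU⟩ := exists_bump hUo heU
    have hφW : ∀ y, φ (C.proj x y) ≠ 0 → y ∈ W := by
      intro y hy
      have h1 : C.proj x y ∈ U := hφU (subset_tsupport φ hy)
      exact h1 (C.mem_supp_proj x y)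
    have hφbar : IsCc fun h => φ (C.H.bar h) := by
      refine ⟨hφ.1.comp C.H.cont_bar, ?_⟩
      refine HasCompactSupport.intro (hφ.2.image C.H.cont_bar) ?_
      intro h hh
      by_contra h0
      exact hh ⟨C.H.bar h, subset_tsupport φ h0, C.H.bar_bar h⟩
    set N := ∫ h, φ (C.H.bar h) ∂ωD with hN
    have hNpos : 0 < N := by
      apply C.H.haar_pos hl hφbar (fun h => hφ0 _)
      rw [bar_e, hφ1]
      exact one_pos
    have hφx := C.proj_cc hφ x
    set c := ∫ y, φ (C.proj x y) ∂ωX with hc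
    have hcnn : 0 ≤ c := integral_nonneg fun y => hφ0 _
    have hint : Integrable (fun y => φ (C.proj x y)) ωX :=
      hφx.1.integrable_of_hasCompactSupport hφx.2
    have hgen : ∀ (F : X → ℝ), Continuous F → (∀ y ∈ W, |F y - F x| ≤ ε) →
        |(∫ y, φ (C.proj x y) * F y ∂ωX) - c * F x| ≤ ε * c := by
      intro F hF hFW
      have hcc : HasCompactSupport fun y => φ (C.proj x y) * F y := hφx.2.mul_right
      have hint2 : Integrable (fun y => φ (C.proj x y) * F y) ωX :=
        (hφx.1.mul hF).integrable_of_hasCompactSupport hcc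
      have h1 : (∫ y, φ (C.proj x y) * F y ∂ωX) - c * F x
          = ∫ y, (φ (C.proj x y) * (F y - F x)) ∂ωX := by
        rw [hc, ← integral_mul_const, ← integral_sub hint2 (hint.mul_const _)]
        congr 1 with y
        ring
      rw [h1, hc, ← integral_const_mul, ← Real.norm_eq_abs]
      refine norm_integral_le_of_norm_le (hint.const_mul ε) (Filter.Eventually.of_forall ?_)
      intro y
      rw [Real.norm_eq_abs, abs_mul, abs_of_nonneg (hφ0 _)]
      by_cases hy : φ (C.proj x y) = 0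
      · rw [hy]; simp
      · have := hFW y (hφW y hy)
        nlinarith [hφ0 (C.proj x y)]
    have e1 := hgen G hGc (fun y hy => hy.1.le)
    have e2 := hgen G₀ hG₀c (fun y hy => hy.2.le)
    rw [C.main_identity hT1 hωX hr hφ hg x] at e1
    rw [C.main_identity hT1 hωX hr hφ hg₀ x] at e2
    change |N * a - c * G x| ≤ ε * c at e1
    change |N * a₀ - c * G₀ x| ≤ ε * c at e2
    -- bound for `c`
    have hcb : c * G₀ x ≤ 2 * (N * a₀) := by
      have h1 := (abs_le.1 e2).1
      nlinarith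
    have h3 : N * (a₀ * G x - a * G₀ x)
        = (N * a₀ - c * G₀ x) * G x - (N * a - c * G x) * G₀ x := by ring
    have h4 : N * |a₀ * G x - a * G₀ x| ≤ ε * c * (|G x| + G₀ x) := by
      rw [← abs_of_pos hNpos, ← abs_mul, h3]
      refine (abs_sub _ _).trans ?_
      rw [abs_mul, abs_mul, abs_of_pos hG₀]
      have h5 := mul_le_mul_of_nonneg_right e2 (abs_nonneg (G x))
      have h6 := mul_le_mul_of_nonneg_right e1 hG₀.le
      linarith
    have h7 : c ≤ 2 * (N * a₀) / G₀ x := by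
      rw [le_div_iff₀ hG₀]; exact hcb
    have h8 : 0 ≤ |G x| + G₀ x := by positivity
    have h9 : N * |a₀ * G x - a * G₀ x|
        ≤ N * (ε * (2 * a₀ / G₀ x * (|G x| + G₀ x))) := by
      refine h4.trans ?_
      have h10 : ε * c * (|G x| + G₀ x) ≤ ε * (2 * (N * a₀) / G₀ x) * (|G x| + G₀ x) := by
        apply mul_le_mul_of_nonneg_right _ h8
        exact mul_le_mul_of_nonneg_left h7 hε.le
      refine h10.trans (le_of_eq ?_)
      ring
    exact le_of_mul_le_mul_left h9 hNpos
  -- conclusion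
  by_contra hne
  have hM : 0 < |a₀ * G x - a * G₀ x| := abs_pos.2 (sub_ne_zero.2 hne)
  set B := 2 * a₀ / G₀ x * (|G x| + G₀ x) with hB
  have h1 := hest (min (G₀ x / 2) (|a₀ * G x - a * G₀ x| / (2 * (|B| + 1))))
    (by positivity) (min_le_left _ _)
  have h2 : min (G₀ x / 2) (|a₀ * G x - a * G₀ x| / (2 * (|B| + 1))) * B
      ≤ |a₀ * G x - a * G₀ x| / (2 * (|B| + 1)) * (|B| + 1) := by
    have h3 : B ≤ |B| + 1 := (le_abs_self B).trans (by linarith)
    have h4 : 0 ≤ min (G₀ x / 2) (|a₀ * G x - a * G₀ x| / (2 * (|B| + 1))) := by positivity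
    refine (mul_le_mul_of_nonneg_left h3 h4).trans ?_
    exact mul_le_mul_of_nonneg_right (min_le_right _ _) (by positivity)
  have h5 : |a₀ * G x - a * G₀ x| / (2 * (|B| + 1)) * (|B| + 1)
      = |a₀ * G x - a * G₀ x| / 2 := by
    field_simp
  rw [h5] at h2
  linarith

/-- (T1) with a left Haar measure which is right invariant implies the transfer identity. -/
theorem transfer (hT1 : C.T1) [Nonempty X] {ωX : Measure X}
    (hωX : IsReversing C.H.bar C.K ωX)
    {ωD : Measure D} (hl : C.H.IsLeftHaar ωD) (hr : C.H.IsRightInvariant ωD) :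
    ∃ c : ℝ, 0 < c ∧ C.TransferIdentity ωX ωD c := by
  have hlfX : IsLocallyFiniteMeasure ωX := hωX.1
  have hopX : ωX.IsOpenPosMeasure := hωX.2.1
  have hprob := C.prob
  obtain ⟨x1⟩ := (inferInstance : Nonempty X)
  obtain ⟨ψ, hψ, hψ0, -, hψ1, -⟩ := exists_bump (isOpen_univ (X := D)) (mem_univ C.H.e)
  set N0 := ∫ h, ψ h ∂ωD with hN0
  have hN0pos : 0 < N0 := C.H.haar_pos hl hψ hψ0 (by rw [hψ1]; exact one_pos)
  have hg₀ := C.proj_cc hψ x1
  have hG₀ : ∀ y, ∫ h, (∫ z, ψ (C.proj x1 z) ∂(C.K y h)) ∂ωD = N0 := by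
    intro y
    rw [hN0, ← hl.2.2 (C.proj x1 y) ψ hψ]
    congr 1 with h
    exact (hT1 h x1 ψ hψ y).symm
  set a₀ := ∫ z, ψ (C.proj x1 z) ∂ωX with ha₀
  have ha₀pos : 0 < a₀ := by
    have hint : Integrable (fun z => ψ (C.proj x1 z)) ωX :=
      hg₀.1.integrable_of_hasCompactSupport hg₀.2
    rw [ha₀, integral_pos_iff_support_of_nonneg (fun z => hψ0 _) hint]
    refine (hg₀.1.isOpen_support).measure_pos ωX ⟨x1, ?_⟩
    rw [Function.mem_support, C.proj_self, hψ1]
    exact one_ne_zero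
  have hG : ∀ (g : X → ℝ), IsCc g → ∀ x,
      ∫ h, (∫ z, g z ∂(C.K x h)) ∂ωD = N0 / a₀ * ∫ z, g z ∂ωX := by
    intro g hg x
    have h1 := C.limit_identity hT1 hωX hl hr hg hg₀ x (by rw [hG₀]; exact hN0pos)
    rw [hG₀] at h1
    change a₀ * _ = _ at h1
    field_simp
    linarith
  refine ⟨N0 / a₀, by positivity, ?_⟩
  intro f g hf hg x
  have hfg : IsCc fun y => f (C.proj x y) * g y :=
    ⟨(C.proj_cc hf x).1.mul hg.1, hg.2.mul_left⟩
  rw [← hG _ hfg x]
  congr 1 with h
  rw [← integral_mul_const]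
  apply integral_congr_support
  intro y hy
  rw [(C.mem_supp_iff x y h).1 hy]
  ring

/-- Scaling a reversing measure. -/
theorem isReversing_smul {bar : D → D} {K : X → D → Measure X} {ω : Measure X}
    (hω : IsReversing bar K ω) {c : ℝ} (hc : 0 < c) :
    IsReversing bar K (ENNReal.ofReal c • ω) := by
  obtain ⟨h1, h2, h3⟩ := hω
  refine ⟨?_, ?_, ?_⟩
  · constructor
    intro x
    obtain ⟨s, hs, hs2⟩ := h1.finiteAtNhds x
    exact ⟨s, hs, by
      rw [Measure.smul_apply, smul_eq_mul]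
      exact ENNReal.mul_lt_top ENNReal.ofReal_lt_top hs2⟩
  · constructor
    intro U hU hne h0
    rw [Measure.smul_apply, smul_eq_mul, mul_eq_zero] at h0
    rcases h0 with h0 | h0
    · rw [ENNReal.ofReal_eq_zero] at h0
      linarith
    · exact h2.open_pos U hU hne h0
  · intro h f g hf hg
    rw [integral_smul_measure, integral_smul_measure, h3 h f g hf hg]

/-- (T1) and unimodularity imply (T2). -/
theorem T2_of_transfer {ωX : Measure X}
    (hωX : IsReversing C.H.bar C.K ωX)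
    {ωD : Measure D} (hl : C.H.IsLeftHaar ωD) {c : ℝ} (hc : 0 < c)
    (h : C.TransferIdentity ωX ωD c) : C.T2 := by
  refine ⟨ENNReal.ofReal c • ωX, ωD, isReversing_smul hωX hc, hl, ?_⟩
  intro f g hf hg x
  rw [h f g hf hg x, integral_smul_measure, ENNReal.toReal_ofReal hc.le, smul_eq_mul, one_mul]

/-- `T_h` of a function in `C_c` of the form `f ∘ π_x` is in `C_c`. -/
theorem T_proj_cc (hT1 : C.T1) {f : D → ℝ} (hf : IsCc f) (x : X) (h : D) :
    IsCc fun y => ∫ z, f (C.proj x z) ∂(C.K y h) := by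
  have h1 := C.proj_cc (C.H.cc_right hf h) x
  have h2 : (fun y => ∫ z, f (C.proj x z) ∂(C.K y h))
      = fun y => ∫ s, f s ∂(C.H.conv (C.proj x y) h) := by
    funext y
    exact (hT1 h x f hf y).symm
  rw [h2]
  exact h1

/-- `ωX` is invariant under `T_h` for functions `f ∘ π_x`. -/
theorem integral_T_proj (hT1 : C.T1) {ωX : Measure X} (hωX : IsReversing C.H.bar C.K ωX)
    {f : D → ℝ} (hf : IsCc f) (x : X) (h : D) :
    ∫ y, (∫ z, f (C.proj x z) ∂(C.K y h)) ∂ωX = ∫ y, f (C.proj x y) ∂ωX := by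
  have hprob := C.prob
  have hfx := C.proj_cc hf x
  have hTf := C.T_proj_cc hT1 hf x h
  -- a compact set containing the supports of `K y (bar h)`, `y` in the support of `f ∘ π_x`
  obtain ⟨K1, hK1, hsub⟩ := exists_compact_cover (Z := X)
    (F := fun y => (C.K y (C.H.bar h)).support) (by
      intro U hU
      have h2 : Continuous fun s : X => (s, C.H.bar h) := by fun_prop
      exact ⟨((C.cont_supp U hU).1).preimage h2, ((C.cont_supp U hU).2).preimage h2⟩)
    (fun s => C.compact_supp _ _) hfx.2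
  obtain ⟨χ, hχ, hχ1⟩ := exists_cutoff (hK1.union hTf.2)
  have h1 := hωX.2.2 h χ (fun y => f (C.proj x y)) hχ hfx
  have h2 : ∫ y, (∫ z, χ z ∂(C.K y (C.H.bar h))) * f (C.proj x y) ∂ωX
      = ∫ y, f (C.proj x y) ∂ωX := by
    congr 1 with y
    by_cases hy : f (C.proj x y) = 0
    · rw [hy, mul_zero]
    · have hy2 : y ∈ tsupport fun y => f (C.proj x y) :=
        subset_tsupport (fun y => f (C.proj x y)) hy
      have h3 : ∫ z, χ z ∂(C.K y (C.H.bar h)) = ∫ z, (1 : ℝ) ∂(C.K y (C.H.bar h)) := by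
        apply integral_congr_support
        intro z hz
        exact hχ1 z (Or.inl (hsub y hy2 hz))
      rw [h3]
      simp
  have h3 : ∫ y, χ y * (∫ z, f (C.proj x z) ∂(C.K y h)) ∂ωX
      = ∫ y, (∫ z, f (C.proj x z) ∂(C.K y h)) ∂ωX := by
    congr 1 with y
    by_cases hy : ∫ z, f (C.proj x z) ∂(C.K y h) = 0
    · rw [hy, mul_zero]
    · have hy2 : y ∈ tsupport fun y => ∫ z, f (C.proj x z) ∂(C.K y h) :=
        subset_tsupport (fun y => ∫ z, f (C.proj x z) ∂(C.K y h)) hy
      rw [hχ1 y (Or.inr hy2), one_mul]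
  rw [← h3, ← h1, h2]

/-- The image of `ωX` under `π_x`. -/
theorem map_proj (hT1 : C.T1) {ωX : Measure X} (hωX : IsReversing C.H.bar C.K ωX) (x : X) :
    IsLocallyFiniteMeasure (ωX.map (C.proj x)) ∧ ωX.map (C.proj x) ≠ 0 ∧
      C.H.IsRightInvariant (ωX.map (C.proj x)) := by
  have hlfX : IsLocallyFiniteMeasure ωX := hωX.1
  have hopX : ωX.IsOpenPosMeasure := hωX.2.1
  have hc : Continuous (C.proj x) :=
    C.cont_proj.comp (by fun_prop : Continuous fun y : X => (x, y))
  refine ⟨⟨fun h => ?_⟩, ?_, ?_⟩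
  · obtain ⟨S, hS, hSn⟩ := exists_compact_mem_nhds h
    obtain ⟨V, hVS, hVo, hV⟩ := mem_nhds_iff.1 hSn
    refine ⟨V, hVo.mem_nhds hV, ?_⟩
    rw [Measure.map_apply hc.measurable hVo.measurableSet]
    obtain ⟨K, hK, hsub⟩ := exists_compact_cover (Z := D)
      (F := fun h => (C.K x h).support) (by
        intro U hU
        have h2 : Continuous fun s : D => (x, s) := by fun_prop
        exact ⟨((C.cont_supp U hU).1).preimage h2, ((C.cont_supp U hU).2).preimage h2⟩)
      (fun s => C.compact_supp _ _) hS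
    refine lt_of_le_of_lt (measure_mono ?_) hK.measure_lt_top
    intro y hy
    exact hsub _ (hVS hy) (C.mem_supp_proj x y)
  · rw [Ne, Measure.map_eq_zero_iff hc.measurable.aemeasurable]
    intro h0
    have h1 : 0 < ωX univ := isOpen_univ.measure_pos ωX ⟨x, mem_univ x⟩
    rw [h0] at h1
    simp at h1
  · intro h f hf
    rw [integral_map hc.measurable.aemeasurable
      (C.H.cc_right hf h).1.aestronglyMeasurable,
      integral_map hc.measurable.aemeasurable hf.1.aestronglyMeasurable,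
      ← C.integral_T_proj hT1 hωX hf x h]
    congr 1 with y
    exact hT1 h x f hf y

/-- (T1) and (T2) imply unimodularity. -/
theorem unimodular_of_T2 [Nonempty X] (hT1 : C.T1) (hT2 : C.T2) : C.H.IsUnimodular := by
  obtain ⟨ωX, ωD, hωX, hl, htr⟩ := hT2
  have hprob := C.prob
  have hlfX : IsLocallyFiniteMeasure ωX := hωX.1
  obtain ⟨x⟩ := (inferInstance : Nonempty X)
  -- `ωD` is the image of `ωX`
  have hmap : ∀ f : D → ℝ, IsCc f → ∫ h, f h ∂ωD = ∫ y, f (C.proj x y) ∂ωX := by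
    intro f hf
    have hfx := C.proj_cc hf x
    obtain ⟨K1, hK1, hsub⟩ := exists_compact_cover (Z := D)
      (F := fun h => (C.K x h).support) (by
        intro U hU
        have h2 : Continuous fun s : D => (x, s) := by fun_prop
        exact ⟨((C.cont_supp U hU).1).preimage h2, ((C.cont_supp U hU).2).preimage h2⟩)
      (fun s => C.compact_supp _ _) hf.2
    obtain ⟨χ, hχ, hχ1⟩ := exists_cutoff hK1
    have h1 := htr f χ hf hχ x
    rw [one_mul] at h1
    have h2 : ∫ h, (∫ y, χ y ∂(C.K x h)) * f h ∂ωD = ∫ h, f h ∂ωD := by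
      congr 1 with h
      by_cases hh : f h = 0
      · rw [hh, mul_zero]
      · have h3 : ∫ y, χ y ∂(C.K x h) = ∫ y, (1 : ℝ) ∂(C.K x h) := by
          apply integral_congr_support
          intro z hz
          exact hχ1 z (hsub h (subset_tsupport f hh) hz)
        rw [h3]
        simp
    have h3 : ∫ y, f (C.proj x y) * χ y ∂ωX = ∫ y, f (C.proj x y) ∂ωX := by
      congr 1 with y
      by_cases hy : f (C.proj x y) = 0
      · rw [hy, zero_mul]
      · rw [hχ1 y (hsub _ (subset_tsupport f hy) (C.mem_supp_proj x y)), mul_one]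
    rw [← h2, h1, h3]
  refine ⟨ωD, hl, ?_⟩
  intro h f hf
  rw [hmap f hf, hmap _ (C.H.cc_right hf h), ← C.integral_T_proj hT1 hωX hf x h]
  congr 1 with y
  exact hT1 h x f hf y

/-- For a CAS with (T1): (T2) holds if and only if `D` is unimodular. -/
theorem T2_iff_unimodular [Nonempty X] (hT1 : C.T1) : C.T2 ↔ C.H.IsUnimodular := by
  constructor
  · exact C.unimodular_of_T2 hT1
  · rintro ⟨ωD, hl, hr⟩
    obtain ⟨ωX, hωX⟩ := C.exists_reversing
    obtain ⟨c, hc, htr⟩ := C.transfer hT1 hωX hl hr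
    exact C.T2_of_transfer hωX hl hc htr

theorem rightInvariant_of_commutative (hcomm : C.H.IsCommutative) {ωD : Measure D}
    (hl : C.H.IsLeftHaar ωD) : C.H.IsRightInvariant ωD := by
  intro y f hf
  rw [← hl.2.2 y f hf]
  congr 1 with x
  rw [hcomm x y]

theorem unimodular_of_commutative [Nonempty X] (hT1 : C.T1) (hcomm : C.H.IsCommutative) :
    C.H.IsUnimodular := by
  obtain ⟨ωX, hωX⟩ := C.exists_reversing
  obtain ⟨x⟩ := (inferInstance : Nonempty X)
  obtain ⟨h1, h2, h3⟩ := C.map_proj hT1 hωX x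
  refine ⟨_, ⟨h1, h2, ?_⟩, h3⟩
  intro y f hf
  rw [← h3 y f hf]
  congr 1 with z
  rw [hcomm y z]

/-- Every commutative CAS with (T1) has (T2), for all choices of the measures. -/
theorem T2_of_commutative [Nonempty X] (hT1 : C.T1) (hcomm : C.H.IsCommutative) :
    C.T2 ∧ C.T2All := by
  refine ⟨(C.T2_iff_unimodular hT1).2 (C.unimodular_of_commutative hT1 hcomm), ?_⟩
  intro ωX ωD hωX hl
  exact C.transfer hT1 hωX hl (C.rightInvariant_of_commutative hcomm hl)

end CAS

end

end Pool.Agent.Lib.MP_3f01e7_al
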