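import Mathlib
import Pool.Agent.Lib.MP_3f01e7_al.Main

set_option autoImplicit false
set_option linter.unusedSectionVars false

/-!
# The continuous association scheme of the affine group
-/

namespace Pool.Agent.Lib.MP_3f01e7_al

open MeasureTheory BoundedContinuousFunction Topology Set

/-- Multiplication of the affine group of the line, on `ℝ × ℝ`. -/
noncomputable def gmul (p q : ℝ × ℝ) : ℝ × ℝ := (p.1 + q.1, p.2 + Real.exp p.1 * q.2)

/-- Inversion of the affine group. -/
noncomputable def ginv (p : ℝ × ℝ) : ℝ × ℝ := (-p.1, -(Real.exp (-p.1) * p.2))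

theorem gmul_assoc (p q r : ℝ × ℝ) : gmul (gmul p q) r = gmul p (gmul q r) := by
  simp only [gmul, Real.exp_add]
  ext <;> simp <;> ring

theorem gmul_zero (p : ℝ × ℝ) : gmul p (0, 0) = p := by simp [gmul]

theorem zero_gmul (p : ℝ × ℝ) : gmul (0, 0) p = p := by simp [gmul]

theorem ginv_gmul (p : ℝ × ℝ) : gmul (ginv p) p = (0, 0) := by
  simp [gmul, ginv]

theorem gmul_ginv (p : ℝ × ℝ) : gmul p (ginv p) = (0, 0) := by
  have : Real.exp p.1 * (Real.exp (-p.1) * p.2) = p.2 := by
    rw [← mul_assoc, ← Real.exp_add]; simp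
  simp [gmul, ginv, this]

theorem ginv_ginv (p : ℝ × ℝ) : ginv (ginv p) = p := by
  have : Real.exp p.1 * (Real.exp (-p.1) * p.2) = p.2 := by
    rw [← mul_assoc, ← Real.exp_add]; simp
  simp [ginv, this]

theorem eq_ginv_of_gmul {p q : ℝ × ℝ} (h : gmul p q = (0, 0)) : q = ginv p := by
  rw [← zero_gmul q, ← ginv_gmul p, gmul_assoc, h, gmul_zero]

theorem ginv_gmul_rev (p q : ℝ × ℝ) : ginv (gmul p q) = gmul (ginv q) (ginv p) := by
  symm
  apply eq_ginv_of_gmul
  rw [gmul_assoc, ← gmul_assoc q, gmul_ginv, zero_gmul, gmul_ginv]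

theorem continuous_gmul : Continuous fun p : (ℝ × ℝ) × (ℝ × ℝ) => gmul p.1 p.2 := by
  unfold gmul
  fun_prop

theorem continuous_ginv : Continuous ginv := by
  unfold ginv
  fun_prop

theorem vietoris_singleton {Z Y : Type} [TopologicalSpace Z] [TopologicalSpace Y] {f : Z → Y}
    (hf : Continuous f) : VietorisContinuous fun z => ({f z} : Set Y) := by
  intro U hU
  constructor
  · have h1 : {z | ({f z} : Set Y) ⊆ U} = f ⁻¹' U := by
      ext z
      exact singleton_subset_iff
    rw [h1]
    exact hU.preimage hf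
  · have h1 : {z | (({f z} : Set Y) ∩ U).Nonempty} = f ⁻¹' U := by
      ext z
      exact singleton_inter_nonempty
    rw [h1]
    exact hU.preimage hf

/-- The hypergroup given by the affine group. -/
noncomputable def affHypergroup : Hypergroup (ℝ × ℝ) where
  conv p q := Measure.dirac (gmul p q)
  e := (0, 0)
  bar := ginv
  prob _ _ := inferInstance
  weak f := by
    simp only [integral_dirac]
    exact f.continuous.comp continuous_gmul
  compact_supp p q := by
    rw [CAS.support_dirac_subset]
    exact isCompact_singleton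
  cont_supp := by
    simp only [CAS.support_dirac_subset]
    exact vietoris_singleton continuous_gmul
  assoc x y z f := by
    simp only [integral_dirac, gmul_assoc]
  conv_e x := by rw [gmul_zero]
  e_conv x := by rw [zero_gmul]
  cont_bar := continuous_ginv
  bar_bar := ginv_ginv
  e_mem x y := by
    rw [CAS.support_dirac_subset, mem_singleton_iff]
    constructor
    · intro h
      exact eq_ginv_of_gmul h.symm
    · rintro rfl
      exact (gmul_ginv x).symm
  bar_conv x y := by
    rw [Measure.map_dirac' continuous_ginv.measurable, ginv_gmul_rev]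

theorem measurePreserving_gmul (h : ℝ × ℝ) :
    MeasurePreserving (fun x : ℝ × ℝ => gmul x h) volume volume := by
  have h1 : MeasurePreserving (fun a : ℝ => a + h.1) volume volume :=
    measurePreserving_add_right volume h.1
  have h2 := MeasurePreserving.skew_product (μc := (volume : Measure ℝ))
    (μd := (volume : Measure ℝ)) h1 (g := fun a b => b + Real.exp a * h.2)
    (by
      have : Continuous (Function.uncurry fun (a b : ℝ) => b + Real.exp a * h.2) := by
        unfold Function.uncurry
        fun_prop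
      exact this.measurable)
    (Filter.Eventually.of_forall fun a => (measurePreserving_add_right volume _).map_eq)
  exact h2

theorem affReversing : IsReversing ginv (fun x h : ℝ × ℝ => Measure.dirac (gmul x h))
    (volume : Measure (ℝ × ℝ)) := by
  refine ⟨inferInstance, inferInstance, ?_⟩
  intro h f g hf hg
  simp only [integral_dirac]
  have hc : Continuous fun x : ℝ × ℝ => f (gmul x (ginv h)) * g x :=
    (hf.1.comp (continuous_gmul.comp (by fun_prop : Continuous fun x : ℝ × ℝ => (x, ginv h)))).mul
      hg.1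
  rw [← (measurePreserving_gmul h).map_eq,
    integral_map (measurePreserving_gmul h).measurable.aemeasurable
      (by rw [(measurePreserving_gmul h).map_eq]; exact hc.aestronglyMeasurable)]
  rw [(measurePreserving_gmul h).map_eq]
  simp only [gmul_assoc, gmul_ginv, gmul_zero]

/-- The continuous association scheme of the affine group `G`: `X = D = G` and
`K_h(x, ·) = δ_{xh}`. -/
noncomputable def affCAS : CAS (ℝ × ℝ) (ℝ × ℝ) where
  K x h := Measure.dirac (gmul x h)
  prob _ _ := inferInstance
  feller f := by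
    simp only [integral_dirac]
    exact f.continuous.comp continuous_gmul
  compact_supp p q := by
    rw [CAS.support_dirac_subset]
    exact isCompact_singleton
  cont_supp := by
    simp only [CAS.support_dirac_subset]
    exact vietoris_singleton continuous_gmul
  proj x y := gmul (ginv x) y
  mem_supp_iff x y h := by
    rw [CAS.support_dirac_subset, mem_singleton_iff]
    constructor
    · rintro rfl
      rw [← gmul_assoc, ginv_gmul, zero_gmul]
    · rintro rfl
      rw [← gmul_assoc, gmul_ginv, zero_gmul]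
  cont_proj := continuous_gmul.comp
    ((continuous_ginv.comp continuous_fst).prodMk continuous_snd)
  H := affHypergroup
  comp h₁ h₂ x f := by
    simp only [affHypergroup, integral_dirac, gmul_assoc]
  K_e x := by
    change Measure.dirac (gmul x (0, 0)) = _
    rw [gmul_zero]
  exists_reversing := ⟨volume, affReversing⟩

theorem affCAS_T1 : affCAS.T1 := by
  intro h x f hf y
  change ∫ s, f s ∂(Measure.dirac (gmul (gmul (ginv x) y) h))
    = ∫ z, f (gmul (ginv x) z) ∂(Measure.dirac (gmul y h))
  rw [integral_dirac, integral_dirac, gmul_assoc]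

/-- the hat function -/
noncomputable def hat (t : ℝ) : ℝ := max 0 (1 - |t|)

theorem continuous_hat : Continuous hat := by
  unfold hat
  fun_prop

theorem hat_nonneg (t : ℝ) : 0 ≤ hat t := le_max_left _ _

theorem hat_zero : hat 0 = 1 := by simp [hat]

theorem hat_eq_zero {t : ℝ} (h : t ∉ Icc (-1 : ℝ) 1) : hat t = 0 := by
  unfold hat
  apply max_eq_left
  by_contra hcon
  push Not at hcon
  apply h
  have : |t| ≤ 1 := by linarith
  exact abs_le.1 this

theorem hat_refine (b : ℝ) :
    hat b = 1 / 2 * hat (2 * (b + 1 / 2)) + hat (2 * b) + 1 / 2 * hat (2 * (b + -(1 / 2))) := by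
  unfold hat
  rcases le_total b (-1) with h1 | h1
  · rw [abs_of_nonpos (by linarith), abs_of_nonpos (by linarith), abs_of_nonpos (by linarith),
      abs_of_nonpos (by linarith), max_eq_left (by linarith), max_eq_left (by linarith),
      max_eq_left (by linarith), max_eq_left (by linarith)]
    ring
  · rcases le_total b (-1/2) with h2 | h2
    · rw [abs_of_nonpos (by linarith), abs_of_nonpos (by linarith), abs_of_nonpos (by linarith),
        abs_of_nonpos (by linarith), max_eq_right (by linarith), max_eq_right (by linarith),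
        max_eq_left (by linarith), max_eq_left (by linarith)]
      ring
    · rcases le_total b 0 with h3 | h3
      · rw [abs_of_nonpos (by linarith), abs_of_nonneg (by linarith), abs_of_nonpos (by linarith),
          abs_of_nonpos (by linarith), max_eq_right (by linarith), max_eq_right (by linarith),
          max_eq_right (by linarith), max_eq_left (by linarith)]
        ring
      · rcases le_total b (1/2) with h4 | h4
        · rw [abs_of_nonneg (by linarith), abs_of_nonneg (by linarith),
            abs_of_nonneg (by linarith),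
            abs_of_nonpos (by linarith), max_eq_right (by linarith), max_eq_left (by linarith),
            max_eq_right (by linarith), max_eq_right (by linarith)]
          ring
        · rcases le_total b 1 with h5 | h5
          · rw [abs_of_nonneg (by linarith), abs_of_nonneg (by linarith),
              abs_of_nonneg (by linarith),
              abs_of_nonneg (by linarith), max_eq_right (by linarith), max_eq_left (by linarith),
              max_eq_left (by linarith), max_eq_right (by linarith)]
            ring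
          · rw [abs_of_nonneg (by linarith), abs_of_nonneg (by linarith),
              abs_of_nonneg (by linarith),
              abs_of_nonneg (by linarith), max_eq_left (by linarith), max_eq_left (by linarith),
              max_eq_left (by linarith), max_eq_left (by linarith)]
            ring

theorem cc_comp_equiv {f : ℝ × ℝ → ℝ} (hf : IsCc f) {φ ψ : ℝ × ℝ → ℝ × ℝ} (hφ : Continuous φ)
    (hψ : Continuous ψ) (hinv : ∀ x, ψ (φ x) = x) : IsCc fun x => f (φ x) := by
  refine ⟨hf.1.comp hφ, ?_⟩
  refine HasCompactSupport.intro (hf.2.image hψ) ?_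
  intro x hx
  by_contra h0
  exact hx ⟨φ x, subset_tsupport f h0, hinv x⟩

theorem cc_gmul_left {f : ℝ × ℝ → ℝ} (hf : IsCc f) (s : ℝ × ℝ) :
    IsCc fun x => f (gmul s x) := by
  refine cc_comp_equiv hf (φ := fun x => gmul s x) (ψ := fun x => gmul (ginv s) x)
    (continuous_gmul.comp (by fun_prop : Continuous fun x : ℝ × ℝ => (s, x)))
    (continuous_gmul.comp (by fun_prop : Continuous fun x : ℝ × ℝ => (ginv s, x))) ?_
  intro x
  rw [← gmul_assoc, ginv_gmul, zero_gmul]

theorem cc_gmul_right {f : ℝ × ℝ → ℝ} (hf : IsCc f) (s : ℝ × ℝ) :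
    IsCc fun x => f (gmul x s) := by
  refine cc_comp_equiv hf (φ := fun x => gmul x s) (ψ := fun x => gmul x (ginv s))
    (continuous_gmul.comp (by fun_prop : Continuous fun x : ℝ × ℝ => (x, s)))
    (continuous_gmul.comp (by fun_prop : Continuous fun x : ℝ × ℝ => (x, ginv s))) ?_
  intro x
  rw [gmul_assoc, gmul_ginv, gmul_zero]

/-- The affine group is not unimodular. -/
theorem aff_not_unimodular : ¬ affHypergroup.IsUnimodular := by
  rintro ⟨ω, hl, hr⟩
  have hlf : IsLocallyFiniteMeasure ω := hl.1
  have hL : ∀ (x : ℝ × ℝ) (f : ℝ × ℝ → ℝ), IsCc f →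
      ∫ y, f (gmul x y) ∂ω = ∫ y, f y ∂ω := by
    intro x f hf
    have h1 := hl.2.2 x f hf
    simp only [affHypergroup, integral_dirac] at h1
    exact h1
  have hR : ∀ (x : ℝ × ℝ) (f : ℝ × ℝ → ℝ), IsCc f →
      ∫ y, f (gmul y x) ∂ω = ∫ y, f y ∂ω := by
    intro x f hf
    have h1 := hr x f hf
    simp only [affHypergroup, integral_dirac] at h1
    exact h1
  let f : ℝ × ℝ → ℝ := fun p => hat p.1 * hat p.2
  have hf : IsCc f := by
    refine ⟨(continuous_hat.comp continuous_fst).mul (continuous_hat.comp continuous_snd), ?_⟩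
    refine HasCompactSupport.intro ((isCompact_Icc (a := (-1 : ℝ)) (b := 1)).prod
      (isCompact_Icc (a := (-1 : ℝ)) (b := 1))) ?_
    rintro ⟨a, b⟩ hab
    change hat a * hat b = 0
    by_cases ha : a ∈ Icc (-1 : ℝ) 1
    · have hb : b ∉ Icc (-1 : ℝ) 1 := fun hb => hab ⟨ha, hb⟩
      rw [hat_eq_zero hb, mul_zero]
    · rw [hat_eq_zero ha, zero_mul]
  have hIpos : 0 < ∫ y, f y ∂ω := by
    refine affHypergroup.haar_pos hl hf (fun y => mul_nonneg (hat_nonneg _) (hat_nonneg _)) ?_
    change 0 < hat 0 * hat 0
    rw [hat_zero]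
    norm_num
  -- conjugation
  let s : ℝ × ℝ := (Real.log 2, 0)
  let s' : ℝ × ℝ := (-Real.log 2, 0)
  have hconj : ∀ y : ℝ × ℝ, gmul (gmul s y) s' = (y.1, 2 * y.2) := by
    intro y
    simp [gmul, s, s', Real.exp_log]
  let F2 : ℝ × ℝ → ℝ := fun p => hat p.1 * hat (2 * p.2)
  have hF2eq : F2 = fun y => (fun z => f (gmul z s')) (gmul s y) := by
    funext y
    change hat y.1 * hat (2 * y.2) = f (gmul (gmul s y) s')
    rw [hconj]
  have hF2cc : IsCc F2 := by
    rw [hF2eq]
    exact cc_gmul_left (cc_gmul_right hf s') s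
  have hF2 : ∫ y, F2 y ∂ω = ∫ y, f y ∂ω := by
    rw [hF2eq, hL s _ (cc_gmul_right hf s'), hR s' f hf]
  have htrans : ∀ t : ℝ, ∫ y, F2 (gmul (0, t) y) ∂ω = ∫ y, f y ∂ω := by
    intro t
    rw [hL _ _ hF2cc, hF2]
  have htcc : ∀ t : ℝ, IsCc fun y => F2 (gmul (0, t) y) := fun t => cc_gmul_left hF2cc _
  have hsplit : ∀ y, f y = 1 / 2 * F2 (gmul (0, 1 / 2) y) + F2 y
      + 1 / 2 * F2 (gmul (0, -(1 / 2)) y) := by
    intro y
    have h1 : ∀ t : ℝ, F2 (gmul (0, t) y) = hat y.1 * hat (2 * (y.2 + t)) := by
      intro t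
      change hat (0 + y.1) * hat (2 * (t + Real.exp 0 * y.2)) = _
      rw [zero_add, Real.exp_zero, one_mul, add_comm t]
    rw [h1, h1]
    change hat y.1 * hat y.2 = _ + hat y.1 * hat (2 * y.2) + _
    rw [hat_refine y.2]
    ring
  have hint : ∀ g : ℝ × ℝ → ℝ, IsCc g → Integrable g ω := fun g hg =>
    hg.1.integrable_of_hasCompactSupport hg.2
  have hfinal : ∫ y, f y ∂ω = 1 / 2 * ∫ y, f y ∂ω + ∫ y, f y ∂ω + 1 / 2 * ∫ y, f y ∂ω := by
    have i1 : Integrable (fun y => 1 / 2 * F2 (gmul (0, 1 / 2) y)) ω :=
      (hint _ (htcc _)).const_mul _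
    have i2 : Integrable (fun y => 1 / 2 * F2 (gmul (0, -(1 / 2)) y)) ω :=
      (hint _ (htcc _)).const_mul _
    have i3 : Integrable F2 ω := hint _ hF2cc
    have i4 : Integrable (fun y => 1 / 2 * F2 (gmul (0, 1 / 2) y) + F2 y) ω := i1.add i3
    calc ∫ y, f y ∂ω = ∫ y, (1 / 2 * F2 (gmul (0, 1 / 2) y) + F2 y
          + 1 / 2 * F2 (gmul (0, -(1 / 2)) y)) ∂ω := integral_congr_ae
          (Filter.Eventually.of_forall hsplit)
      _ = ∫ y, (1 / 2 * F2 (gmul (0, 1 / 2) y) + F2 y) ∂ω
          + ∫ y, 1 / 2 * F2 (gmul (0, -(1 / 2)) y) ∂ω := integral_add i4 i2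
      _ = (∫ y, 1 / 2 * F2 (gmul (0, 1 / 2) y) ∂ω + ∫ y, F2 y ∂ω)
          + ∫ y, 1 / 2 * F2 (gmul (0, -(1 / 2)) y) ∂ω := by
        rw [integral_add i1 i3]
      _ = 1 / 2 * ∫ y, f y ∂ω + ∫ y, f y ∂ω + 1 / 2 * ∫ y, f y ∂ω := by
        rw [integral_const_mul, integral_const_mul, htrans, htrans, hF2]
  linarith

/-- The scheme of the affine group has (T1) but not (T2). -/
theorem affCAS_not_T2 : ¬ affCAS.T2 := fun h =>
  aff_not_unimodular (affCAS.unimodular_of_T2 affCAS_T1 h)

end Pool.Agent.Lib.MP_3f01e7_al
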